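import Pool.Agent.Q259.AF.Main

set_option autoImplicit false

namespace Pool.Agent.Results.MP_567833_co.NotSubadditive

open Pool.Agent.Q259.AF
open scoped SimpleGraph

theorem K18_antimagic : Antimagic (K 18) := by
  rw [(SF.star 18).antimagic_iff]
  classical
  have hcs : cs (fun _ : Fin 18 => ()) (fun i => i.val + 1) () = 171 := by
    unfold cs
    simp only [if_true]
    rfl
  refine ⟨fun i => i.val + 1, ⟨fun i _ => ?_, fun i _ j _ h => ?_, fun n hn => ?_⟩, ?_⟩
  · simp only [Set.mem_Icc, Fintype.card_fin]
    omega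
  · simp only at h
    omega
  · simp only [Set.mem_Icc, Fintype.card_fin] at hn
    exact ⟨⟨n - 1, by omega⟩, trivial, by simp only; omega⟩
  · have key : Function.Injective (Sum.elim (fun i : Fin 18 => i.val + 1)
        (cs (fun _ : Fin 18 => ()) (fun i => i.val + 1))) := by
      rintro (i | i) (j | j) h
      · simp only [Sum.elim_inl] at h
        congr 1
        omega
      · simp only [Sum.elim_inl, Sum.elim_inr] at h
        rw [hcs] at h
        omega
      · simp only [Sum.elim_inl, Sum.elim_inr] at h
        rw [hcs] at h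
        omega
      · rfl
    exact key

theorem K6_antimagic : Antimagic (K 6) := by
  rw [(SF.star 6).antimagic_iff]
  classical
  have hcs : cs (fun _ : Fin 6 => ()) (fun i => i.val + 1) () = 21 := by
    unfold cs
    simp only [if_true]
    rfl
  refine ⟨fun i => i.val + 1, ⟨fun i _ => ?_, fun i _ j _ h => ?_, fun n hn => ?_⟩, ?_⟩
  · simp only [Set.mem_Icc, Fintype.card_fin]
    omega
  · simp only at h
    omega
  · simp only [Set.mem_Icc, Fintype.card_fin] at hn
    exact ⟨⟨n - 1, by omega⟩, trivial, by simp only; omega⟩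
  · have key : Function.Injective (Sum.elim (fun i : Fin 6 => i.val + 1)
        (cs (fun _ : Fin 6 => ()) (fun i => i.val + 1))) := by
      rintro (i | i) (j | j) h
      · simp only [Sum.elim_inl] at h
        congr 1
        omega
      · simp only [Sum.elim_inl, Sum.elim_inr] at h
        rw [hcs] at h
        omega
      · simp only [Sum.elim_inl, Sum.elim_inr] at h
        rw [hcs] at h
        omega
      · rfl
    exact key

/-- adding no path changes nothing -/
def addZero {V : Type} {G : SimpleGraph V} {L C : Type} (S : SF G L C) :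
    SF (G ⊕g tP3 0) L C where
  e := S.e.trans (Equiv.sumEmpty V (Fin 0 × Fin 3)).symm
  c := S.c
  adj := by
    intro x y
    simp [S.adj]

theorem exists_tau {V : Type} [Fintype V] {G : SimpleGraph V} (h : Antimagic G)
    (h0 : Antimagic (G ⊕g tP3 0)) {N : ℕ} (hN : ¬ Antimagic (G ⊕g tP3 N)) :
    ∃ n < N, IsTau G n := by
  classical
  set A : Set ℕ := {t : ℕ | ∀ t' ≤ t, Antimagic (G ⊕g tP3 t')} with hA
  have hlt : ∀ t ∈ A, t < N := by
    intro t ht
    by_contra hc
    exact hN (ht N (by omega))
  have hb : BddAbove A := ⟨N, fun t ht => (hlt t ht).le⟩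
  have hne : A.Nonempty := ⟨0, fun t' ht' => by
    obtain rfl : t' = 0 := by omega
    exact h0⟩
  have hmem := Nat.sSup_mem hne hb
  exact ⟨sSup A, hlt _ hmem, h, hmem, fun t ht => le_csSup hb ht⟩

/-- There are antimagic graphs `G`, `H` with antimagic disjoint union `G ∪ H` such that
`τ(G) + τ(H) < τ(G ∪ H)`. -/
theorem result : ∃ (V W : Type) (_ : Fintype V) (_ : Fintype W) (G : SimpleGraph V)
    (H : SimpleGraph W) (a b c : ℕ),
      IsTau G a ∧ IsTau H b ∧ IsTau (G ⊕g H) c ∧ a + b < c := by
  have h1 : Antimagic (K 18 ⊕g tP3 0) := by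
    rw [(addZero (SF.star 18)).antimagic_iff]
    exact (SF.star 18).antimagic_iff.1 K18_antimagic
  have h2 : Antimagic (K 6 ⊕g tP3 0) := by
    rw [(addZero (SF.star 6)).antimagic_iff]
    exact (SF.star 6).antimagic_iff.1 K6_antimagic
  have h3 := union_antimagic 0 (by omega)
  have h4 : Antimagic (K 18 ⊕g K 6) := by
    rw [((SF.star 18).sum (SF.star 6)).antimagic_iff]
    exact (addZero ((SF.star 18).sum (SF.star 6))).antimagic_iff.1 h3
  obtain ⟨a, ha, ha'⟩ := exists_tau K18_antimagic h1 (star18_not 38 le_rfl)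
  obtain ⟨b, hb, hb'⟩ := exists_tau K6_antimagic h2 star6_not
  obtain ⟨c, -, hc'⟩ := exists_tau h4 h3 (union_not 50 le_rfl)
  have hc : 47 ≤ c := hc'.2.2 fun t' ht' => union_antimagic t' ht'
  exact ⟨_, _, inferInstance, inferInstance, K 18, K 6, a, b, c, ha', hb', hc', by omega⟩

end Pool.Agent.Results.MP_567833_co.NotSubadditive
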